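import Pool.Agent.W397.HC.Main

set_option autoImplicit false

/-!
# Covering all `d`-subcubes of the hypercube by `l`-subcubes: a logarithmic gain over counting

In the cube of dimension `d + 2` the `n = d + 2` coordinates of the words of a covering set `S` are
`n` partial vectors of length `|S|`; any two of them show all four patterns. Hence the sets of
vectors which agree with the `i`-th of them, or with its complement, are pairwise disjoint, so that
`∑ 2 ^ (1 - m i) ≤ 1`, where `m i` is the number of members of `S` in which the coordinate `i` is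
fixed; convexity gives `|S| (n - l) = ∑ m i ≥ n (1 + log n)`. Averaging over facets passes to
larger cubes.
-/

namespace Pool.Agent.Results.MP_7c0edd_co.LogGain

open Finset

/-- A subcube of the cube `{0,1}^n`: the coordinate `i` is free when `s i = none`, and fixed to the
value `b` when `s i = some b`. -/
abbrev Subcube (n : ℕ) : Type := Fin n → Option Bool

/-- The set of vertices of a subcube. -/
def verts {n : ℕ} (s : Subcube n) : Set (Fin n → Bool) := {x | ∀ i b, s i = some b → x i = b}

/-- The dimension of a subcube: its number of free coordinates. -/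
def dim {n : ℕ} (s : Subcube n) : ℕ := #{i | s i = none}

/-- `S` is a `(d, l)`-covering set of the `n`-cube: it consists of `l`-subcubes, and every
`d`-subcube contains a member of `S`. -/
def IsCovering (l d n : ℕ) (S : Finset (Subcube n)) : Prop :=
  (∀ s ∈ S, dim s = l) ∧ ∀ D : Subcube n, dim D = d → ∃ s ∈ S, verts s ⊆ verts D

/-- The smallest size of a `(d, l)`-covering set of the `n`-cube. -/
noncomputable def f (l d n : ℕ) : ℕ :=
  sInf {k | ∃ S : Finset (Subcube n), IsCovering l d n S ∧ S.card = k}

/-- The proportion of all `l`-subcubes of the `n`-cube which a smallest `(d, l)`-covering set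
uses. -/
noncomputable def c (l d n : ℕ) : ℝ := (f l d n : ℝ) / (2 ^ (n - l) * (n.choose l : ℝ))

/-- For all `l < d` and `n ≥ d + 2`, the density `c l d n` is at least
`(1 + log₂ (d + 2)) / 4 * (d + 1 - l) / (d + 1)` times the counting bound
`1 / (2 ^ (d - l) * (d choose l))`, and so is its limit as `n` tends to infinity. In the cube of
dimension `d + 2` every `(d, l)`-covering set `S` has
`(d + 2 - l) |S| ≥ (d + 2) (1 + log₂ (d + 2))`. -/
theorem result : ∀ l d : ℕ, l < d →
    (∀ n : ℕ, d + 2 ≤ n →
      (1 + Real.logb 2 ((d : ℝ) + 2)) / 4 * (((d : ℝ) + 1 - l) / (d + 1)) *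
        (1 / (2 ^ (d - l) * (d.choose l : ℝ))) ≤ c l d n) ∧
    (∀ L : ℝ, Filter.Tendsto (fun n => c l d n) Filter.atTop (nhds L) →
      (1 + Real.logb 2 ((d : ℝ) + 2)) / 4 * (((d : ℝ) + 1 - l) / (d + 1)) *
        (1 / (2 ^ (d - l) * (d.choose l : ℝ))) ≤ L) ∧
    ((d : ℝ) + 2) * (1 + Real.logb 2 ((d : ℝ) + 2)) ≤ (f l d (d + 2) : ℝ) * ((d : ℝ) + 2 - l) := by
  intro l d hld
  have h1 : ∀ n : ℕ, d + 2 ≤ n →
      (1 + Real.logb 2 ((d : ℝ) + 2)) / 4 * (((d : ℝ) + 1 - l) / (d + 1)) *
        (1 / (2 ^ (d - l) * (d.choose l : ℝ))) ≤ c l d n :=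
    fun n hn => Pool.Agent.W397.HC.main hld hn
  refine ⟨h1, fun L hL => ?_, ?_⟩
  · refine ge_of_tendsto hL ?_
    filter_upwards [Filter.eventually_ge_atTop (d + 2)] with n hn
    exact h1 n hn
  · have hne : {k' | ∃ S : Finset (Subcube (d + 2)), IsCovering l d (d + 2) S ∧
        S.card = k'}.Nonempty := by
      obtain ⟨S, hS⟩ := Pool.Agent.W397.HC.exists_covering (l := l) (d := d) (n := d + 2) hld
      exact ⟨_, S, hS, rfl⟩
    obtain ⟨S, hS, hc⟩ := Nat.sInf_mem hne
    have h := Pool.Agent.W397.HC.base S hS
    rw [hc] at h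
    push_cast at h
    exact h

end Pool.Agent.Results.MP_7c0edd_co.LogGain
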