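import Pool.Agent.W397.HC.Dens

set_option autoImplicit false

/-!
# Covering all `d`-subcubes by `l`-subcubes in the cubes of dimension `d + 1` and `d + 2`
-/

namespace Pool.Agent.Results.MP_7c0edd_co.SmallCodimension

open Finset

/-- A subcube of the cube `{0,1}^n`: the coordinate `i` is free when `s i = none`, and fixed to the
value `b` when `s i = some b`. -/
abbrev Subcube (n : ℕ) : Type := Fin n → Option Bool

/-- The set of vertices of a subcube. -/
def verts {n : ℕ} (s : Subcube n) : Set (Fin n → Bool) := {x | ∀ i b, s i = some b → x i = b}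

/-- The dimension of a subcube: its number of free coordinates. -/
def dim {n : ℕ} (s : Subcube n) : ℕ := #{i | s i = none}

/-- `S` is a `(d, l)`-covering set of the `n`-cube: it consists of `l`-subcubes, and every
`d`-subcube contains a member of `S`. -/
def IsCovering (l d n : ℕ) (S : Finset (Subcube n)) : Prop :=
  (∀ s ∈ S, dim s = l) ∧ ∀ D : Subcube n, dim D = d → ∃ s ∈ S, verts s ⊆ verts D

/-- The smallest size of a `(d, l)`-covering set of the `n`-cube. -/
noncomputable def f (l d n : ℕ) : ℕ :=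
  sInf {k | ∃ S : Finset (Subcube n), IsCovering l d n S ∧ S.card = k}

/-- The proportion of all `l`-subcubes of the `n`-cube which a smallest `(d, l)`-covering set
uses. -/
noncomputable def c (l d n : ℕ) : ℝ := (f l d n : ℝ) / (2 ^ (n - l) * (n.choose l : ℝ))

/-- For all `l < d`, the smallest size of a `(d, l)`-covering set of the cube of dimension `d + 1`
is `⌈2 (d + 1) / (d + 1 - l)⌉`, so that for all `n ≥ d + 1` the density `c l d n`, and also its
limit, is at least `⌈2 (d + 1) / (d + 1 - l)⌉ (d + 1 - l) / (2 (d + 1))` times the counting bound;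
in the cube of dimension `d + 2` the smallest size is at most `6 ⌈log₂ (d + 2)⌉ + 6` when
`3 l ≤ d + 2`. -/
theorem result : ∀ l d : ℕ, l < d →
    f l d (d + 1) = ⌈(2 * ((d : ℝ) + 1)) / ((d : ℝ) + 1 - l)⌉₊ ∧
    (∀ n : ℕ, d + 1 ≤ n →
      (⌈(2 * ((d : ℝ) + 1)) / ((d : ℝ) + 1 - l)⌉₊ : ℝ) *
        (((d : ℝ) + 1 - l) / (2 * ((d : ℝ) + 1))) *
        (1 / (2 ^ (d - l) * (d.choose l : ℝ))) ≤ c l d n) ∧
    (∀ L : ℝ, Filter.Tendsto (fun n => c l d n) Filter.atTop (nhds L) →
      (⌈(2 * ((d : ℝ) + 1)) / ((d : ℝ) + 1 - l)⌉₊ : ℝ) *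
        (((d : ℝ) + 1 - l) / (2 * ((d : ℝ) + 1))) *
        (1 / (2 ^ (d - l) * (d.choose l : ℝ))) ≤ L) ∧
    (3 * l ≤ d + 2 → f l d (d + 2) ≤ 6 * Nat.clog 2 (d + 2) + 6) := by
  intro l d hld
  have hl : (l : ℝ) < d := by exact_mod_cast hld
  have h7 : (0 : ℝ) < (d : ℝ) + 1 - l := by linarith
  refine ⟨le_antisymm ?_ ?_, fun n hn => Pool.Agent.W397.HC.main_one hld hn, fun L hL => ?_,
    fun h3 => ?_⟩
  · set k := ⌈(2 * ((d : ℝ) + 1)) / ((d : ℝ) + 1 - l)⌉₊ with hk
    have h1 : (2 * ((d : ℝ) + 1)) / ((d : ℝ) + 1 - l) ≤ k := Nat.le_ceil _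
    rw [div_le_iff₀ h7] at h1
    have h2 : 2 * (d + 1) ≤ k * (d + 1 - l) := by
      have h3 : ((d + 1 - l : ℕ) : ℝ) = (d : ℝ) + 1 - l := by
        rw [Nat.cast_sub (by omega)]; push_cast; ring
      have h4 : ((2 * (d + 1) : ℕ) : ℝ) ≤ ((k * (d + 1 - l) : ℕ) : ℝ) := by
        rw [Nat.cast_mul k, h3]; push_cast; linarith
      exact_mod_cast h4
    obtain ⟨S, hS, hc⟩ := Pool.Agent.W397.HC.upper_one hld k h2
    have h5 : S.card ∈ {k' | ∃ S : Finset (Subcube (d + 1)), IsCovering l d (d + 1) S ∧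
        S.card = k'} := ⟨S, hS, rfl⟩
    exact le_trans (Nat.sInf_le h5) hc
  · have hne : {k' | ∃ S : Finset (Subcube (d + 1)), IsCovering l d (d + 1) S ∧
        S.card = k'}.Nonempty := by
      obtain ⟨S, hS⟩ := Pool.Agent.W397.HC.exists_covering (l := l) (d := d) (n := d + 1) hld
      exact ⟨_, S, hS, rfl⟩
    obtain ⟨S, hS, hc⟩ := Nat.sInf_mem hne
    have h := Pool.Agent.W397.HC.lower_one S hS
    rw [hc] at h
    refine Nat.ceil_le.2 ?_
    rw [div_le_iff₀ h7]
    exact h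
  · refine ge_of_tendsto hL ?_
    filter_upwards [Filter.eventually_ge_atTop (d + 1)] with n hn
    exact Pool.Agent.W397.HC.main_one hld hn
  · obtain ⟨S, hS, hc⟩ := Pool.Agent.W397.HC.upper_two h3
    have h5 : S.card ∈ {k' | ∃ S : Finset (Subcube (d + 2)), IsCovering l d (d + 2) S ∧
        S.card = k'} := ⟨S, hS, rfl⟩
    exact le_trans (Nat.sInf_le h5) hc

end Pool.Agent.Results.MP_7c0edd_co.SmallCodimension
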